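import Pool.Agent.helper93.TV.Spec2

/-!
# Row tv:DP
-/

namespace Pool.Agent.helper93.TV

open BigOperators Finset Matrix

section
variable {V : Type} [Fintype V] [DecidableEq V]

theorem DP_move (S : Finset (List V)) (g : V → V → List V → V → ℂ) :
    ∑ a, ∑ b, ∑ p ∈ S, ∑ z, g a b p z = ∑ z, ∑ a, ∑ b, ∑ p ∈ S, g a b p z := by
  calc ∑ a, ∑ b, ∑ p ∈ S, ∑ z, g a b p z
      = ∑ a, ∑ b, ∑ z, ∑ p ∈ S, g a b p z :=
        Finset.sum_congr rfl fun _ _ => Finset.sum_congr rfl fun _ _ => Finset.sum_comm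
    _ = ∑ a, ∑ z, ∑ b, ∑ p ∈ S, g a b p z :=
        Finset.sum_congr rfl fun _ _ => Finset.sum_comm
    _ = ∑ z, ∑ a, ∑ b, ∑ p ∈ S, g a b p z := Finset.sum_comm

theorem DP_gen (S : Finset (List V)) (A : V → V → ℂ) (B C : V → V → V → ℂ)
    (x y : V → List V → ℂ) :
    ∑ a, ∑ b, ∑ p ∈ S, (∑ n, ∑ l, ∑ s, A n l * B l s b * C n s a) * (x b p * y a p) =
      ∑ n, ∑ l, ∑ s, ∑ p ∈ S, A n l * (∑ b, B l s b * x b p) * (∑ a, C n s a * y a p) := by
  simp only [Finset.sum_mul]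
  rw [DP_move]
  refine Finset.sum_congr rfl fun n _ => ?_
  rw [DP_move]
  refine Finset.sum_congr rfl fun l _ => ?_
  rw [DP_move]
  refine Finset.sum_congr rfl fun s _ => ?_
  have e : ∀ p ∈ S, A n l * (∑ b, B l s b * x b p) * (∑ a, C n s a * y a p) =
      ∑ a, ∑ b, A n l * B l s b * C n s a * (x b p * y a p) := by
    intro p _
    rw [Finset.mul_sum, Finset.mul_sum]
    refine Finset.sum_congr rfl fun a _ => ?_
    rw [Finset.sum_mul]
    exact Finset.sum_congr rfl fun b _ => by ring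
  rw [Finset.sum_congr rfl e]
  calc ∑ a, ∑ b, ∑ p ∈ S, A n l * B l s b * C n s a * (x b p * y a p)
      = ∑ a, ∑ p ∈ S, ∑ b, A n l * B l s b * C n s a * (x b p * y a p) :=
        Finset.sum_congr rfl fun _ _ => Finset.sum_comm
    _ = ∑ p ∈ S, ∑ a, ∑ b, A n l * B l s b * C n s a * (x b p * y a p) := Finset.sum_comm

theorem DP_main (F : V → V → V → V → ℂ) (hF : Pent F) : ∀ n, ∀ l m n₁ n₂,
    ∀ p ∈ lists V n, ∀ p'' ∈ lists V n,
    ∑ m', tp F m p p'' m' * F l m' n₁ n₂ =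
      ∑ n', ∑ l'', ∑ p' ∈ lists V n, F l m n' l'' * tp F l'' p p' n₂ * tp F n' p' p'' n₁ := by
  intro n
  induction n with
  | zero =>
    intro l m n₁ n₂ p hp p'' hp''
    rw [mem_lists, List.length_eq_zero_iff] at hp hp''
    subst hp
    subst hp''
    simp [sum_lists_zero]
  | succ n ih =>
    intro l m n₁ n₂ p hp p'' hp''
    rw [mem_lists] at hp hp''
    obtain ⟨e, q, rfl⟩ : ∃ e q, p = e :: q := by
      cases p with
      | nil => simp at hp
      | cons e q => exact ⟨e, q, rfl⟩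
    obtain ⟨e'', q'', rfl⟩ : ∃ e q, p'' = e :: q := by
      cases p'' with
      | nil => simp at hp''
      | cons e q => exact ⟨e, q, rfl⟩
    have hq : q ∈ lists V n := by rw [mem_lists]; simpa using hp
    have hq'' : q'' ∈ lists V n := by rw [mem_lists]; simpa using hp''
    simp only [sum_lists_succ, tp_cons]
    have h1 : ∑ m', (∑ m1, F m e e'' m1 * tp F m1 q q'' m') * F l m' n₁ n₂ =
        ∑ m1, F m e e'' m1 * ∑ n', ∑ l'', ∑ p' ∈ lists V n,
          F l m1 n' l'' * tp F l'' q p' n₂ * tp F n' p' q'' n₁ := by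
      simp only [Finset.sum_mul]
      rw [Finset.sum_comm]
      refine Finset.sum_congr rfl fun m1 _ => ?_
      rw [← ih l m1 n₁ n₂ q hq q'' hq'', Finset.mul_sum]
      exact Finset.sum_congr rfl fun _ _ => by ring
    rw [h1]
    have h2 : ∑ m1, F m e e'' m1 * ∑ n', ∑ l'', ∑ p' ∈ lists V n,
          F l m1 n' l'' * tp F l'' q p' n₂ * tp F n' p' q'' n₁ =
        ∑ n', ∑ l'', ∑ p' ∈ lists V n, (∑ m1, F m e e'' m1 * F l m1 n' l'') *
          (tp F l'' q p' n₂ * tp F n' p' q'' n₁) := by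
      simp only [Finset.sum_mul, Finset.mul_sum]
      rw [DP_move]
      refine Finset.sum_congr rfl fun _ _ => Finset.sum_congr rfl fun _ _ =>
        Finset.sum_congr rfl fun _ _ => Finset.sum_congr rfl fun _ _ => by ring
    rw [h2]
    have h3 : ∀ n' l'', ∑ m1, F m e e'' m1 * F l m1 n' l'' =
        ∑ μ, ∑ ρ, ∑ σ, F l m μ ρ * F ρ e σ l'' * F μ σ e'' n' := by
      intro n' l''
      exact hF l m e e'' n' l''
    simp only [h3]
    exact DP_gen (lists V n) (fun μ ρ => F l m μ ρ) (fun ρ σ l'' => F ρ e σ l'')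
      (fun μ σ n' => F μ σ e'' n') (fun l'' p' => tp F l'' q p' n₂)
      (fun n' p' => tp F n' p' q'' n₁)

end

theorem DP : DP_stmt := by
  intro I V _ _ _ _ F hF n l m n₁ n₂ p hp p'' hp''
  exact DP_main F hF n l m n₁ n₂ p hp p'' hp''

end Pool.Agent.helper93.TV
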