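import Pool.Agent.helper93.TV.Spec3

/-!
# Row tv:RG
-/

namespace Pool.Agent.helper93.TV

open BigOperators Finset

theorem RG_count {α β : Type} [Fintype α] [Fintype β] [DecidableEq α] [DecidableEq β]
    (R : Finset α) (C : Finset β) (f : α → β → ℂ) (w : ℂ) (hw : w ≠ 0)
    (h : ∀ x y, f x y ≠ 0 → (x ∈ R ↔ y ∈ C)) (hr : ∀ x ∈ R, ∑ y, f x y = w)
    (hc : ∀ y ∈ C, ∑ x, f x y = w) : R.card = C.card := by
  have h1 : ∑ x ∈ R, ∑ y ∈ C, f x y = R.card * w := by
    rw [← nsmul_eq_mul, ← Finset.sum_const]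
    refine Finset.sum_congr rfl fun x hx => ?_
    rw [← hr x hx]
    refine Finset.sum_subset (Finset.subset_univ _) fun y _ hy => ?_
    by_contra hne
    exact hy ((h x y hne).1 hx)
  have h2 : ∑ y ∈ C, ∑ x ∈ R, f x y = C.card * w := by
    rw [← nsmul_eq_mul, ← Finset.sum_const]
    refine Finset.sum_congr rfl fun y hy => ?_
    rw [← hc y hy]
    refine Finset.sum_subset (Finset.subset_univ _) fun x _ hx => ?_
    by_contra hne
    exact hx ((h x y hne).2 hy)
  rw [Finset.sum_comm, h1] at h2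
  have h3 := mul_right_cancel₀ hw h2
  exact_mod_cast h3

section
variable {I V : Type} [Fintype I] [DecidableEq I] [Fintype V] [DecidableEq V]

theorem RG_rows (D : FD I V) (a b c d : I) :
    (univ.filter fun x : V × V => D.s1 x.1 = a ∧ D.s2 x.1 = b ∧ D.t x.1 = D.s1 x.2 ∧
      D.s2 x.2 = c ∧ D.t x.2 = d).card = ∑ e, D.mlt a b e * D.mlt e c d := by
  rw [Finset.card_eq_sum_card_fiberwise (f := fun x : V × V => D.t x.1) (t := univ)
    (fun _ _ => Finset.mem_coe.2 (mem_univ _))]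
  refine Finset.sum_congr rfl fun e _ => ?_
  unfold FD.mlt
  rw [← Finset.card_product]
  congr 1
  ext x
  simp only [mem_filter, mem_univ, true_and, mem_product]
  constructor
  · rintro ⟨⟨h1, h2, h3, h4, h5⟩, h6⟩
    exact ⟨⟨h1, h2, h6⟩, by rw [← h3, h6], h4, h5⟩
  · rintro ⟨⟨h1, h2, h6⟩, h3, h4, h5⟩
    exact ⟨⟨h1, h2, by rw [h6, h3], h4, h5⟩, h6⟩

theorem RG_cols (D : FD I V) (a b c d : I) :
    (univ.filter fun x : V × V => D.s1 x.1 = b ∧ D.s2 x.1 = c ∧ D.t x.1 = D.s2 x.2 ∧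
      D.s1 x.2 = a ∧ D.t x.2 = d).card = ∑ f, D.mlt b c f * D.mlt a f d := by
  rw [Finset.card_eq_sum_card_fiberwise (f := fun x : V × V => D.t x.1) (t := univ)
    (fun _ _ => Finset.mem_coe.2 (mem_univ _))]
  refine Finset.sum_congr rfl fun e _ => ?_
  unfold FD.mlt
  rw [← Finset.card_product]
  congr 1
  ext x
  simp only [mem_filter, mem_univ, true_and, mem_product]
  constructor
  · rintro ⟨⟨h1, h2, h3, h4, h5⟩, h6⟩
    exact ⟨⟨h1, h2, h6⟩, h4, by rw [← h3, h6], h5⟩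
  · rintro ⟨⟨h1, h2, h6⟩, h4, h3, h5⟩
    exact ⟨⟨h1, h2, by rw [h6, h3], h4, h5⟩, h6⟩

theorem RG_assoc (D : FD I V) (F : V → V → V → V → ℂ) (h : D.UFS F) (a b c d : I) :
    ∑ e, D.mlt a b e * D.mlt e c d = ∑ f, D.mlt b c f * D.mlt a f d := by
  rw [← RG_rows, ← RG_cols]
  refine RG_count _ _ (fun x y => F x.1 x.2 y.1 y.2 * star (F x.1 x.2 y.1 y.2)) 1 one_ne_zero
    ?_ ?_ ?_
  · intro x y hxy
    have h1 := (h.uf.conn.supp _ _ _ _ (left_ne_zero_of_mul hxy)).1
    obtain ⟨c1, c2, c3, c4, c5, c6⟩ := h1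
    simp only [mem_filter, mem_univ, true_and]
    constructor
    · rintro ⟨h1, h2, h3, h4, h5⟩
      exact ⟨by rw [← c4, h2], by rw [← c5, h4], c2, by rw [← c3, h1], by rw [← c6, h5]⟩
    · rintro ⟨h1, h2, h3, h4, h5⟩
      exact ⟨by rw [c3, h4], by rw [c4, h1], c1, by rw [c5, h2], by rw [c6, h5]⟩
  · intro x hx
    simp only [mem_filter, mem_univ, true_and] at hx
    rw [Fintype.sum_prod_type]
    have := h.uf.conn.row x.1 x.2 x.1 x.2 hx.2.2.1 (mem_univ _) (mem_univ _)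
    rw [this]
    simp
  · intro y hy
    simp only [mem_filter, mem_univ, true_and] at hy
    rw [Fintype.sum_prod_type]
    have := h.uf.conn.col y.1 y.2 y.1 y.2 hy.2.2.1 (mem_univ _) (mem_univ _)
    rw [if_pos ⟨rfl, rfl⟩] at this
    rw [← this]
    exact Finset.sum_congr rfl fun _ _ => Finset.sum_congr rfl fun _ _ => by ring

theorem RG_frl (D : FD I V) (F : V → V → V → V → ℂ) (h : D.UFS F) (a b c : I) :
    D.mlt a b c = D.mlt (D.du a) c b := by
  have hD := L1_Dims D F h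
  have hpos : ∀ x, (D.dm F x) ≠ 0 := fun x => (hD.pos x).ne'
  refine RG_count _ _ (fun x y => D.Cm F x y * star (D.Cm F x y))
    ((D.dm F c / (D.dm F a * D.dm F b) : ℝ) : ℂ) ?_ ?_ ?_ ?_
  · rw [Ne, Complex.ofReal_eq_zero]
    exact div_ne_zero (hpos _) (mul_ne_zero (hpos _) (hpos _))
  · intro x y hxy
    have h1 := (h.uf.conn.supp _ _ _ _ (left_ne_zero_of_mul hxy)).1
    obtain ⟨c1, c2, c3, c4, c5, c6⟩ := h1
    rw [D.s1_eta] at c3
    rw [D.s2_eta, D.du_du] at c4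
    rw [D.s2_lam] at c5
    rw [D.t_lam] at c6
    simp only [mem_filter, mem_univ, true_and]
    constructor
    · rintro ⟨h1, h2, h3⟩
      exact ⟨by rw [← c3, h1], by rw [← c2, h3], by rw [← c6, h2]⟩
    · rintro ⟨h1, h2, h3⟩
      refine ⟨?_, by rw [c6, h3], by rw [c2, h2]⟩
      rw [← D.du_du a, ← h1, ← c3, D.du_du]
  · intro x hx
    simp only [mem_filter, mem_univ, true_and] at hx
    have := hD.CCH x x
    rw [if_pos rfl, hx.1, hx.2.1, hx.2.2] at this
    exact this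
  · intro y hy
    simp only [mem_filter, mem_univ, true_and] at hy
    have := hD.CHC y y
    rw [if_pos rfl, hy.1, hy.2.1, hy.2.2, hD.du] at this
    rw [← this]
    exact Finset.sum_congr rfl fun _ _ => mul_comm _ _

theorem RG_frr (D : FD I V) (F : V → V → V → V → ℂ) (h : D.UFS F) (a b c : I) :
    D.mlt a b c = D.mlt c (D.du b) a := by
  have hD := L1_Dims D F h
  have hpos : ∀ x, (D.dm F x) ≠ 0 := fun x => (hD.pos x).ne'
  refine RG_count _ _ (fun x y => D.Bm F x y * star (D.Bm F x y))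
    ((D.dm F c / (D.dm F a * D.dm F b) : ℝ) : ℂ) ?_ ?_ ?_ ?_
  · rw [Ne, Complex.ofReal_eq_zero]
    exact div_ne_zero (hpos _) (mul_ne_zero (hpos _) (hpos _))
  · intro x y hxy
    have h1 := (h.uf.conn.supp _ _ _ _ (left_ne_zero_of_mul hxy)).1
    obtain ⟨c1, c2, c3, c4, c5, c6⟩ := h1
    rw [D.s2_eta] at c5
    rw [D.t_rho] at c6
    simp only [mem_filter, mem_univ, true_and]
    constructor
    · rintro ⟨h1, h2, h3⟩
      exact ⟨by rw [← c1, h3], by rw [c5, h2], by rw [c6, h1]⟩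
    · rintro ⟨h1, h2, h3⟩
      refine ⟨by rw [← c6, h3], ?_, by rw [c1, h1]⟩
      rw [← D.du_du b, ← h2, c5, D.du_du]
  · intro x hx
    simp only [mem_filter, mem_univ, true_and] at hx
    have := hD.BBH x x
    rw [if_pos rfl, hx.1, hx.2.1, hx.2.2] at this
    exact this
  · intro y hy
    simp only [mem_filter, mem_univ, true_and] at hy
    have := hD.BHB y y
    rw [if_pos rfl, hy.1, hy.2.1, hy.2.2, hD.du] at this
    rw [mul_comm (D.dm F a)]
    rw [← this]
    exact Finset.sum_congr rfl fun _ _ => mul_comm _ _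

end

theorem RG : RG_stmt := by
  intro I V _ _ _ _ D F h
  exact ⟨RG_assoc D F h, RG_frl D F h, RG_frr D F h⟩

end Pool.Agent.helper93.TV
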